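import Mathlib

/-!
# Rook domination on the triangular board

The domination number `γ(n)` of the triangular board with `n` rows satisfies
`3 n / 8 ≤ γ(n) ≤ ⌊(11 n + 18) / 24⌋` for all `n ≥ 1`. The upper bound agrees with the known values
for `n ≤ 12` and is smaller than `⌊n/2⌋` for all even `n ≥ 20` and all odd `n ≥ 31`.

Upper bound: `p = 2k+1` rooks use, in each direction, the first `p` rows of one parity; if a cell is
covered by none of them, one or all three of its coordinates are large, and if exactly one is large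
the two others have the other parity. Pairs of small rows of the other parity are then used by
further rooks. Lower bound: let `a, b, c` be the least unused rows in the three directions. Looking
at the line of an unused row gives `2m ≥ n - a` and so on, and a rook is on at most two of the
`a + b + c` lowest rows, which gives `2m ≥ a + b + c`.
-/

set_option autoImplicit false

namespace Pool.Agent.Results.MP_a338c1_co.RookDomination

/-- Triples of nonnegative integers. -/
abbrev Cell := ℕ × ℕ × ℕ

/-- The cells of the triangular board with `n` rows: `(a, b, c)` with `a + b + c = n - 1`. -/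
def board (n : ℕ) : Set Cell := {p | p.1 + p.2.1 + p.2.2 + 1 = n}

/-- Two cells are on a common line: they agree in at least one coordinate. -/
def OnLine (r p : Cell) : Prop := r.1 = p.1 ∨ r.2.1 = p.2.1 ∨ r.2.2 = p.2.2

/-- `S` is a covering set of rooks on the board with `n` rows. -/
def IsCovering (n : ℕ) (S : Finset Cell) : Prop :=
  (∀ r ∈ S, r ∈ board n) ∧ ∀ p ∈ board n, ∃ r ∈ S, OnLine r p

/-- The domination number of the board with `n` rows: the least size of a covering set. -/
noncomputable def gamma (n : ℕ) : ℕ := sInf {k | ∃ S : Finset Cell, IsCovering n S ∧ S.card = k}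

theorem gamma_le {n : ℕ} {S : Finset Cell} (h : IsCovering n S) : gamma n ≤ S.card :=
  Nat.sInf_le ⟨S, h, rfl⟩

/-- a corner rook reduces the board with `n + 2` rows to the board with `n` rows -/
theorem corner {n m : ℕ} (h : ∃ S : Finset Cell, IsCovering n S ∧ S.card ≤ m) :
    ∃ S : Finset Cell, IsCovering (n + 2) S ∧ S.card ≤ m + 1 := by
  classical
  obtain ⟨S, ⟨h1, h2⟩, h3⟩ := h
  refine ⟨insert (n + 1, 0, 0) (S.image fun r => (r.1, r.2.1 + 1, r.2.2 + 1)), ⟨?_, ?_⟩, ?_⟩
  · intro r hr
    rcases Finset.mem_insert.1 hr with rfl | hr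
    · simp only [board, Set.mem_ofPred_eq]
    · obtain ⟨r', hr', rfl⟩ := Finset.mem_image.1 hr
      have := h1 r' hr'
      simp only [board, Set.mem_ofPred_eq] at this ⊢
      omega
  · rintro ⟨a, b, c⟩ hp
    simp only [board, Set.mem_ofPred_eq] at hp
    by_cases hb : b = 0
    · exact ⟨_, Finset.mem_insert_self _ _, Or.inr (Or.inl hb.symm)⟩
    by_cases hc : c = 0
    · exact ⟨_, Finset.mem_insert_self _ _, Or.inr (Or.inr hc.symm)⟩
    obtain ⟨r, hr, hr'⟩ := h2 (a, b - 1, c - 1) (by
      simp only [board, Set.mem_ofPred_eq]; omega)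
    refine ⟨(r.1, r.2.1 + 1, r.2.2 + 1),
      Finset.mem_insert_of_mem (Finset.mem_image.2 ⟨r, hr, rfl⟩), ?_⟩
    simp only [OnLine] at hr' ⊢
    omega
  · have h4 := Finset.card_insert_le (n + 1, 0, 0)
      (S.image fun r : Cell => ((r.1, r.2.1 + 1, r.2.2 + 1) : Cell))
    have h5 : (S.image fun r : Cell => ((r.1, r.2.1 + 1, r.2.2 + 1) : Cell)).card ≤ S.card :=
      Finset.card_image_le
    omega

theorem corners {n m : ℕ} (h : ∃ S : Finset Cell, IsCovering n S ∧ S.card ≤ m) (i : ℕ) :
    ∃ S : Finset Cell, IsCovering (n + 2 * i) S ∧ S.card ≤ m + i := by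
  induction i with
  | zero => exact h
  | succ i ih => exact corner ih

/-- the general construction -/
theorem family (k x y z p q r : ℕ) (hp : p ≤ 1) (hq : q ≤ 1) (hr : r ≤ 1)
    (h1 : k + q + r ≤ (x + y) + (y + z) + 1) (h2 : k + p + r ≤ (x + z) + (y + z) + 1)
    (h3 : k + p + q ≤ (x + z) + (x + y) + 1) (h4 : 4 * (x + y + z) ≤ 6 * k + p + q + r + 2) :
    ∃ S : Finset Cell, IsCovering (6 * k + 1 + p + q + r) S ∧
      S.card ≤ 2 * k + 1 + (x + y + z) := by
  classical
  set n := 6 * k + 1 + p + q + r with hn
  -- rooks on three rows of the main parities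
  set f : ℕ → Cell := fun i => if i ≤ k then (p + 2 * i, q + 2 * (2 * k - 2 * i), r + 2 * (i + k))
    else (p + 2 * i, q + 2 * (4 * k + 1 - 2 * i), r + 2 * (i - k - 1)) with hf
  set fx : ℕ → Cell := fun i =>
    (1 - p + 2 * i, 1 - q + 2 * i, n - 1 - (1 - p + 2 * i) - (1 - q + 2 * i)) with hfx
  set fy : ℕ → Cell := fun i =>
    (n - 1 - (1 - q + 2 * (x + i)) - (1 - r + 2 * i), 1 - q + 2 * (x + i), 1 - r + 2 * i) with hfy
  set fz : ℕ → Cell := fun i =>
    (1 - p + 2 * (x + i), n - 1 - (1 - p + 2 * (x + i)) - (1 - r + 2 * (y + i)),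
      1 - r + 2 * (y + i)) with hfz
  set S : Finset Cell := (Finset.range (2 * k + 1)).image f ∪ ((Finset.range x).image fx ∪
    ((Finset.range y).image fy ∪ (Finset.range z).image fz)) with hS
  have mf : ∀ i, i < 2 * k + 1 → f i ∈ S := fun i hi => by
    rw [hS, Finset.mem_union]
    exact Or.inl (Finset.mem_image.2 ⟨i, Finset.mem_range.2 hi, rfl⟩)
  have mx : ∀ i, i < x → fx i ∈ S := fun i hi => by
    rw [hS, Finset.mem_union, Finset.mem_union]
    exact Or.inr (Or.inl (Finset.mem_image.2 ⟨i, Finset.mem_range.2 hi, rfl⟩))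
  have my : ∀ i, i < y → fy i ∈ S := fun i hi => by
    rw [hS, Finset.mem_union, Finset.mem_union, Finset.mem_union]
    exact Or.inr (Or.inr (Or.inl (Finset.mem_image.2 ⟨i, Finset.mem_range.2 hi, rfl⟩)))
  have mz : ∀ i, i < z → fz i ∈ S := fun i hi => by
    rw [hS, Finset.mem_union, Finset.mem_union, Finset.mem_union]
    exact Or.inr (Or.inr (Or.inr (Finset.mem_image.2 ⟨i, Finset.mem_range.2 hi, rfl⟩)))
  refine ⟨S, ⟨?_, ?_⟩, ?_⟩
  · intro s hs
    rw [hS, Finset.mem_union, Finset.mem_union, Finset.mem_union] at hs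
    rcases hs with hs | hs | hs | hs
    · obtain ⟨i, hi, rfl⟩ := Finset.mem_image.1 hs
      rw [Finset.mem_range] at hi
      simp only [hf, board, Set.mem_ofPred_eq]
      split_ifs with h
      · simp only; omega
      · simp only; omega
    · obtain ⟨i, hi, rfl⟩ := Finset.mem_image.1 hs
      rw [Finset.mem_range] at hi
      simp only [hfx, board, Set.mem_ofPred_eq]
      omega
    · obtain ⟨i, hi, rfl⟩ := Finset.mem_image.1 hs
      rw [Finset.mem_range] at hi
      simp only [hfy, board, Set.mem_ofPred_eq]
      omega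
    · obtain ⟨i, hi, rfl⟩ := Finset.mem_image.1 hs
      rw [Finset.mem_range] at hi
      simp only [hfz, board, Set.mem_ofPred_eq]
      omega
  · rintro ⟨a, b, c⟩ hcell
    simp only [board, Set.mem_ofPred_eq] at hcell
    by_contra hcon
    push Not at hcon
    simp only [OnLine, not_or] at hcon
    -- rows of the main parities
    have a1 : a % 2 = p % 2 → p + 2 * (2 * k + 1) ≤ a := by
      intro hpar
      by_contra hlt
      by_cases hap : p ≤ a
      · have h5 := (hcon _ (mf ((a - p) / 2) (by omega))).1
        apply h5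
        simp only [hf]
        split_ifs <;> simp only <;> omega
      · omega
    have b1 : b % 2 = q % 2 → q + 2 * (2 * k + 1) ≤ b := by
      intro hpar
      by_contra hlt
      by_cases hbq : q ≤ b
      · rcases Nat.even_or_odd' ((b - q) / 2) with ⟨u, hu | hu⟩
        · have h5 := (hcon _ (mf (k - u) (by omega))).2.1
          apply h5
          simp only [hf]
          rw [if_pos (by omega)]
          simp only
          omega
        · have h5 := (hcon _ (mf (2 * k - u) (by omega))).2.1
          apply h5
          simp only [hf]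
          rw [if_neg (by omega)]
          simp only
          omega
      · omega
    have c1 : c % 2 = r % 2 → r + 2 * (2 * k + 1) ≤ c := by
      intro hpar
      by_contra hlt
      by_cases hcr : r ≤ c
      · by_cases hck : k ≤ (c - r) / 2
        · have h5 := (hcon _ (mf ((c - r) / 2 - k) (by omega))).2.2
          apply h5
          simp only [hf]
          rw [if_pos (by omega)]
          simp only
          omega
        · have h5 := (hcon _ (mf ((c - r) / 2 + k + 1) (by omega))).2.2
          apply h5
          simp only [hf]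
          rw [if_neg (by omega)]
          simp only
          omega
      · omega
    -- rows of the other parities
    have a2 : a % 2 ≠ p % 2 → 1 - p + 2 * (x + z) ≤ a := by
      intro hpar
      by_contra hlt
      by_cases hax : (a - (1 - p)) / 2 < x
      · have h5 := (hcon _ (mx _ hax)).1
        apply h5
        simp only [hfx]
        omega
      · have h5 := (hcon _ (mz ((a - (1 - p)) / 2 - x) (by omega))).1
        apply h5
        simp only [hfz]
        omega
    have b2 : b % 2 ≠ q % 2 → 1 - q + 2 * (x + y) ≤ b := by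
      intro hpar
      by_contra hlt
      by_cases hbx : (b - (1 - q)) / 2 < x
      · have h5 := (hcon _ (mx _ hbx)).2.1
        apply h5
        simp only [hfx]
        omega
      · have h5 := (hcon _ (my ((b - (1 - q)) / 2 - x) (by omega))).2.1
        apply h5
        simp only [hfy]
        omega
    have c2 : c % 2 ≠ r % 2 → 1 - r + 2 * (y + z) ≤ c := by
      intro hpar
      by_contra hlt
      by_cases hcy : (c - (1 - r)) / 2 < y
      · have h5 := (hcon _ (my _ hcy)).2.2
        apply h5
        simp only [hfy]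
        omega
      · have h5 := (hcon _ (mz ((c - (1 - r)) / 2 - y) (by omega))).2.2
        apply h5
        simp only [hfz]
        omega
    clear hcon mf mx my mz
    by_cases ha : a % 2 = p % 2
    · have ha' := a1 ha
      by_cases hb : b % 2 = q % 2
      · have hb' := b1 hb
        have hc : c % 2 = r % 2 := by omega
        have hc' := c1 hc
        omega
      · have hb' := b2 hb
        have hc : c % 2 ≠ r % 2 := by omega
        have hc' := c2 hc
        omega
    · have ha' := a2 ha
      by_cases hb : b % 2 = q % 2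
      · have hb' := b1 hb
        have hc : c % 2 ≠ r % 2 := by omega
        have hc' := c2 hc
        omega
      · have hb' := b2 hb
        have hc : c % 2 = r % 2 := by omega
        have hc' := c1 hc
        omega
  · have e1 := Finset.card_union_le ((Finset.range (2 * k + 1)).image f)
      ((Finset.range x).image fx ∪ ((Finset.range y).image fy ∪ (Finset.range z).image fz))
    have e2 := Finset.card_union_le ((Finset.range x).image fx)
      ((Finset.range y).image fy ∪ (Finset.range z).image fz)
    have e3 := Finset.card_union_le ((Finset.range y).image fy) ((Finset.range z).image fz)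
    have e4 := Finset.card_image_le (s := Finset.range (2 * k + 1)) (f := f)
    have e5 := Finset.card_image_le (s := Finset.range x) (f := fx)
    have e6 := Finset.card_image_le (s := Finset.range y) (f := fy)
    have e7 := Finset.card_image_le (s := Finset.range z) (f := fz)
    rw [Finset.card_range] at e4 e5 e6 e7
    rw [← hS] at e1
    omega

theorem base_one : ∃ S : Finset Cell, IsCovering 1 S ∧ S.card ≤ 1 := by
  refine ⟨{(0, 0, 0)}, ⟨?_, ?_⟩, by simp⟩
  · intro r hr
    rw [Finset.mem_singleton] at hr
    subst hr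
    simp only [board, Set.mem_ofPred_eq]
  · rintro ⟨a, b, c⟩ hp
    simp only [board, Set.mem_ofPred_eq] at hp
    exact ⟨(0, 0, 0), by simp, Or.inl (by simp only; omega)⟩

theorem base_two : ∃ S : Finset Cell, IsCovering 2 S ∧ S.card ≤ 1 := by
  refine ⟨{(1, 0, 0)}, ⟨?_, ?_⟩, by simp⟩
  · intro r hr
    rw [Finset.mem_singleton] at hr
    subst hr
    simp only [board, Set.mem_ofPred_eq]
  · rintro ⟨a, b, c⟩ hp
    simp only [board, Set.mem_ofPred_eq] at hp
    refine ⟨(1, 0, 0), by simp, ?_⟩
    simp only [OnLine]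
    omega

theorem upper (n : ℕ) (hn : 1 ≤ n) : ∃ S : Finset Cell, IsCovering n S ∧
    S.card ≤ (11 * n + 18) / 24 := by
  have key : ∀ n0 m0 i : ℕ, (∃ S : Finset Cell, IsCovering n0 S ∧ S.card ≤ m0) →
      n = n0 + 2 * i → m0 + i ≤ (11 * n + 18) / 24 →
      ∃ S : Finset Cell, IsCovering n S ∧ S.card ≤ (11 * n + 18) / 24 := by
    intro n0 m0 i h1 h2 h3
    obtain ⟨S, h4, h5⟩ := corners h1 i
    rw [← h2] at h4
    exact ⟨S, h4, h5.trans h3⟩
  rcases Nat.even_or_odd' n with ⟨u, hu | hu⟩
  · rcases Nat.lt_or_ge n 20 with h | h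
    · exact key 2 1 (u - 1) base_two (by omega) (by omega)
    · -- `n = 24 j + 20 + 2 i`
      set j := (n - 20) / 24 with hj
      obtain ⟨S, h1, h2⟩ := family (4 * j + 3) j (j + 1) (j + 1) 0 0 1 (by omega) (by omega)
        (by omega) (by omega) (by omega) (by omega) (by omega)
      exact key (24 * j + 20) (11 * j + 9) ((n - (24 * j + 20)) / 2)
        ⟨S, by
          have : 6 * (4 * j + 3) + 1 + 0 + 0 + 1 = 24 * j + 20 := by ring
          rwa [this] at h1, by omega⟩ (by omega) (by omega)
  · rcases Nat.lt_or_ge n 7 with h | h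
    · exact key 1 1 u base_one (by omega) (by omega)
    · set j := (n - 7) / 24 with hj
      obtain ⟨S, h1, h2⟩ := family (4 * j + 1) j j j 0 0 0 (by omega) (by omega)
        (by omega) (by omega) (by omega) (by omega) (by omega)
      exact key (24 * j + 7) (11 * j + 3) ((n - (24 * j + 7)) / 2)
        ⟨S, by
          have : 6 * (4 * j + 1) + 1 + 0 + 0 + 0 = 24 * j + 7 := by ring
          rwa [this] at h1, by omega⟩ (by omega) (by omega)

/-- the number of rooks in the rows below `t`, if these rows are used -/
theorem low_rows (S : Finset Cell) (g : Cell → ℕ) (t : ℕ) (h : ∀ a < t, ∃ r ∈ S, g r = a) :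
    t ≤ (S.filter fun r => g r < t).card := by
  classical
  have h1 : Finset.range t ⊆ (S.filter fun r => g r < t).image g := by
    intro a ha
    rw [Finset.mem_range] at ha
    obtain ⟨r, hr, hra⟩ := h a ha
    exact Finset.mem_image.2 ⟨r, Finset.mem_filter.2 ⟨hr, by omega⟩, hra⟩
  have h2 := Finset.card_le_card h1
  rw [Finset.card_range] at h2
  exact h2.trans Finset.card_image_le

theorem lower {n : ℕ} {S : Finset Cell} (hS : IsCovering n S) : 3 * n ≤ 8 * S.card := by
  classical
  obtain ⟨hb, hc⟩ := hS
  set A := S.image fun r => r.1 with hA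
  set B := S.image fun r => r.2.1 with hB
  set C := S.image fun r => r.2.2 with hC
  have cA : A.card ≤ S.card := Finset.card_image_le
  have cB : B.card ≤ S.card := Finset.card_image_le
  have cC : C.card ≤ S.card := Finset.card_image_le
  have mem : ∀ a b c : ℕ, a + b + c + 1 = n → a ∈ A ∨ b ∈ B ∨ c ∈ C := by
    intro a b c habc
    obtain ⟨r, hr, h1 | h1 | h1⟩ := hc (a, b, c) habc
    · exact Or.inl (Finset.mem_image.2 ⟨r, hr, h1⟩)
    · exact Or.inr (Or.inl (Finset.mem_image.2 ⟨r, hr, h1⟩))
    · exact Or.inr (Or.inr (Finset.mem_image.2 ⟨r, hr, h1⟩))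
  -- an unused row
  have unused : ∀ X : Finset ℕ, ∃ x, x ∉ X ∧ ∀ y < x, y ∈ X := by
    intro X
    have hex : ∃ x, x ∉ X := Infinite.exists_notMem_finset X
    refine ⟨Nat.find hex, Nat.find_spec hex, fun y hy => ?_⟩
    by_contra h
    exact Nat.find_min hex hy h
  obtain ⟨a0, ha0, ha1⟩ := unused A
  obtain ⟨b0, hb0, hb1⟩ := unused B
  obtain ⟨c0, hc0, hc1⟩ := unused C
  -- the lines of the unused rows
  have line : ∀ (X Y : Finset ℕ) (t : ℕ), (∀ x y, x + y = t → x ∈ X ∨ y ∈ Y) →
      t + 1 ≤ X.card + Y.card := by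
    intro X Y t h
    have h1 : Finset.range (t + 1) ⊆ X ∪ Y.image fun y => t - y := by
      intro x hx
      rw [Finset.mem_range] at hx
      rw [Finset.mem_union]
      rcases h x (t - x) (by omega) with h2 | h2
      · exact Or.inl h2
      · exact Or.inr (Finset.mem_image.2 ⟨t - x, h2, by omega⟩)
    have h2 := Finset.card_le_card h1
    rw [Finset.card_range] at h2
    have h3 := Finset.card_union_le X (Y.image fun y => t - y)
    have h4 : (Y.image fun y => t - y).card ≤ Y.card := Finset.card_image_le
    omega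
  have la : n ≤ a0 + (B.card + C.card) := by
    rcases Nat.lt_or_ge a0 n with h | h
    · have := line B C (n - 1 - a0) (fun x y hxy => by
        rcases mem a0 x y (by omega) with h1 | h1 | h1
        · exact absurd h1 ha0
        · exact Or.inl h1
        · exact Or.inr h1)
      omega
    · omega
  have lb : n ≤ b0 + (A.card + C.card) := by
    rcases Nat.lt_or_ge b0 n with h | h
    · have := line A C (n - 1 - b0) (fun x y hxy => by
        rcases mem x b0 y (by omega) with h1 | h1 | h1
        · exact Or.inl h1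
        · exact absurd h1 hb0
        · exact Or.inr h1)
      omega
    · omega
  have lc : n ≤ c0 + (A.card + B.card) := by
    rcases Nat.lt_or_ge c0 n with h | h
    · have := line A B (n - 1 - c0) (fun x y hxy => by
        rcases mem x y c0 (by omega) with h1 | h1 | h1
        · exact Or.inl h1
        · exact Or.inr h1
        · exact absurd h1 hc0)
      omega
    · omega
  -- a rook is on at most two low rows
  have low : ∀ a1 b1 c1 : ℕ, a1 ≤ a0 → b1 ≤ b0 → c1 ≤ c0 → a1 + b1 + c1 ≤ n + 1 →
      a1 + b1 + c1 ≤ 2 * S.card := by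
    intro a1 b1 c1 h1 h2 h3 h4
    have e1 := low_rows S (fun r => r.1) a1 (fun a ha => by
      obtain ⟨r, hr, h⟩ := Finset.mem_image.1 (ha1 a (by omega)); exact ⟨r, hr, h⟩)
    have e2 := low_rows S (fun r => r.2.1) b1 (fun a ha => by
      obtain ⟨r, hr, h⟩ := Finset.mem_image.1 (hb1 a (by omega)); exact ⟨r, hr, h⟩)
    have e3 := low_rows S (fun r => r.2.2) c1 (fun a ha => by
      obtain ⟨r, hr, h⟩ := Finset.mem_image.1 (hc1 a (by omega)); exact ⟨r, hr, h⟩)
    have e4 : (S.filter fun r => r.1 < a1).card + (S.filter fun r => r.2.1 < b1).card +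
        (S.filter fun r => r.2.2 < c1).card ≤ 2 * S.card := by
      rw [Finset.card_filter, Finset.card_filter, Finset.card_filter, ← Finset.sum_add_distrib,
        ← Finset.sum_add_distrib, mul_comm, ← smul_eq_mul, ← Finset.sum_const]
      refine Finset.sum_le_sum fun r hr => ?_
      have h5 : r.1 + r.2.1 + r.2.2 + 1 = n := hb r hr
      split_ifs <;> omega
    omega
  rcases Nat.lt_or_ge (n + 1) (a0 + b0 + c0) with h | h
  · -- many low rows
    obtain ⟨a1, b1, c1, h1, h2, h3, h4⟩ : ∃ a1 b1 c1 : ℕ, a1 ≤ a0 ∧ b1 ≤ b0 ∧ c1 ≤ c0 ∧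
        a1 + b1 + c1 = n + 1 :=
      ⟨min a0 (n + 1), min b0 (n + 1 - min a0 (n + 1)),
        n + 1 - min a0 (n + 1) - min b0 (n + 1 - min a0 (n + 1)), by omega, by omega, by omega,
        by omega⟩
    have := low a1 b1 c1 h1 h2 h3 h4.le
    omega
  · have := low a0 b0 c0 le_rfl le_rfl le_rfl h
    omega

/-- **Bounds for the domination number of the triangular board.** For every `n ≥ 1`,
`3 n / 8 ≤ γ(n) ≤ ⌊(11 n + 18) / 24⌋`; in particular `γ(n) < ⌊n/2⌋` for all even `n ≥ 20` and all
odd `n ≥ 31`. -/
theorem result : ∀ n : ℕ, 1 ≤ n → 3 * n ≤ 8 * gamma n ∧ gamma n ≤ (11 * n + 18) / 24 ∧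
    ((Even n ∧ 20 ≤ n) ∨ 31 ≤ n → gamma n < n / 2) := by
  intro n hn
  obtain ⟨S, h1, h2⟩ := upper n hn
  have hup : gamma n ≤ (11 * n + 18) / 24 := (gamma_le h1).trans h2
  have hmem : gamma n ∈ {k | ∃ S : Finset Cell, IsCovering n S ∧ S.card = k} :=
    Nat.sInf_mem ⟨S.card, S, h1, rfl⟩
  obtain ⟨T, h3, h4⟩ := hmem
  refine ⟨by rw [← h4]; exact lower h3, hup, ?_⟩
  rintro (⟨⟨u, hu⟩, h⟩ | h)
  · omega
  · omega

end Pool.Agent.Results.MP_a338c1_co.RookDomination
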